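import Pool.Agent.Lib.MP_b07a8a_nt.Final

/-!
# Ricci's almost primes with the right parity (MP_b07a8a_nt)

For `f(n) = n (n + 1) / 2 + 1` there is a constant `K` such that for infinitely many `n` both `n` and
`f(n)` have at most `K` prime factors (with multiplicity) and both have an ODD number of prime factors.

* `Pool.Agent.SievePar.poly_almost_prime`: a Brun-Hooley lower bound sieve for the values of one
  polynomial `G ∈ ℤ[X]` with `G(0) ≠ 0` on the multiples of a constant.
* `Pool.Agent.SievePar.Core.core`: 254 polynomials `n_i(w)` such that for EVERY `w` one of the `n_i(w)`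
  has the right parities. The `n_i(w)` and the `f(n_i(w))` are products of 198 polynomials (and of
  constants), because of `2 f(x (x + 1) / 2) = f(x - 1) f(x + 1)` and similar identities; each of the
  `2 ^ 198` sign patterns of these polynomials is excluded by a resolution proof.
-/

namespace Pool.Agent.Results.MP_b07a8a_nt.AlmostPrimeBothOdd

open ArithmeticFunction

/-- The set of all `n` such that `n` and `n (n + 1) / 2 + 1` have at most `K` prime factors and both
have an odd number of prime factors (with multiplicity). -/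
def S (K : ℕ) : Set ℕ :=
  {n | cardFactors n ≤ K ∧ Odd (cardFactors n) ∧ cardFactors (n * (n + 1) / 2 + 1) ≤ K ∧
    Odd (cardFactors (n * (n + 1) / 2 + 1))}

/-- There are `K` and `D` such that `S K` is infinite; more precisely `S K` has at least `N ^ (1 / D)`
elements up to `N`, for all sufficiently large `N`. -/
theorem result : ∃ K D : ℕ, (S K).Infinite ∧
    ∀ᶠ N : ℕ in Filter.atTop, N ≤ (S K ∩ Set.Iic N).ncard ^ D := by
  obtain ⟨K, D, h⟩ := Pool.Agent.SievePar.Core.main
  have hsub : ∀ N : ℕ, ((Pool.Agent.SievePar.Core.goodSet K N : Finset ℕ) : Set ℕ) ⊆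
      S K ∩ Set.Iic N := by
    intro N n hn
    rw [Finset.mem_coe, Pool.Agent.SievePar.Core.mem_goodSet] at hn
    exact ⟨⟨hn.2.2.1, hn.2.2.2.1, hn.2.2.2.2.1, hn.2.2.2.2.2⟩, hn.1.2⟩
  have hfin : ∀ N : ℕ, (S K ∩ Set.Iic N).Finite := fun N =>
    (Set.finite_Iic N).subset Set.inter_subset_right
  have hmain : ∀ᶠ N : ℕ in Filter.atTop, N ≤ (S K ∩ Set.Iic N).ncard ^ D := by
    filter_upwards [h] with N hN
    refine hN.trans (Nat.pow_le_pow_left ?_ D)
    rw [← Set.ncard_coe_finset]
    exact Set.ncard_le_ncard (hsub N) (hfin N)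
  refine ⟨K, D, ?_, hmain⟩
  intro hS
  obtain ⟨N₀, hN₀⟩ := Filter.eventually_atTop.mp hmain
  set C := (S K).ncard with hC
  have h1 := hN₀ (max N₀ (C ^ D + 1)) (le_max_left _ _)
  have h2 : (S K ∩ Set.Iic (max N₀ (C ^ D + 1))).ncard ≤ C :=
    Set.ncard_le_ncard Set.inter_subset_left hS
  have h3 := Nat.pow_le_pow_left h2 D
  have h4 := le_max_right N₀ (C ^ D + 1)
  omega

end Pool.Agent.Results.MP_b07a8a_nt.AlmostPrimeBothOdd
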